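import Pool.Agent.TH680.EL.Law
import Pool.Agent.TH680.ND.Law
import Pool.Agent.H943R3.PP.N2
import Pool.Agent.H622R2.Exp.A4
import Pool.Agent.H620R2.Gauge2.Trans

/-! Nondeterministic time `Pol t`, for all time bounds `t` at once. -/

set_option autoImplicit false

namespace Pool.Agent.TH680.CT

open Pool.Agent.NPC Pool.Agent.H620R2.Gauge Pool.Agent.H591R3.PHG
  Pool.Agent.W900.IE Pool.Agent.W900.PS Pool.Agent.H622R2 Pool.Agent.W900
  Pool.Agent.H622R2.Exp
open Pool.Agent.TH680.EL (InNTime2)
open Pool.Agent.TH680.ND (rep poly_replen)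

/-- `NTIME(Pol t)` relative to `O` -/
def NT (O : Oracle) (t : ℕ → ℕ) (L : Set (List Bool)) : Prop :=
  ∃ (V : List Bool → List Bool) (p : Polynomial ℕ), IsFP O V ∧
    (∀ x c : List Bool, V (pairBits c x) = [true] → x ∈ L) ∧
    ∀ x ∈ L, ∃ c : List Bool, c.length ≤ p.eval (t x.length) ∧ V (pairBits c x) = [true]

/-- `t` is computable in time `Pol t` -/
def Constr (t : ℕ → ℕ) : Prop :=
  ∃ (F : List Bool → List Bool) (r : Polynomial ℕ), PolyTime F ∧
    ∀ n m : ℕ, (F (pairBits (List.replicate n true) (List.replicate m true)) = [] ∨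
      F (pairBits (List.replicate n true) (List.replicate m true)) = true :: (t n).bits) ∧
      (r.eval (t n) ≤ m →
        F (pairBits (List.replicate n true) (List.replicate m true)) ≠ [])

/-- The values of `t` do not jump over large intervals. -/
def Gentle (t : ℕ → ℕ) : Prop :=
  ∃ k₀ : ℕ, ∀ k ≥ k₀, ∃ m ≥ 4 * k, 2 ^ k ≤ t m ∧ t m ≤ 2 ^ 2 ^ (k / 200)

theorem isFP_cmb {O : Oracle} {V : List Bool → List Bool} {c d : List Bool → Bool}
    (hV : IsFP O V) (hc : Poly c) (hd : Poly d) :
    IsFP O (fun z => [d z || (c z && decide (V z = [true]))]) := by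
  have e1 : Poly (fun p : List Bool × List Bool × List Bool => p.1) := Poly.fst Poly.id
  exact IsFP.seq (φ := fun p : List Bool × List Bool => p.1)
    (ψ := fun p : List Bool × List Bool × List Bool =>
      [d p.1 || (c p.1 && decide (p.2.1 = [true]))]) hV (IsFP.of_poly (A := O)
        (F := fun s => s) Poly.id) (Poly.fst Poly.id)
    (Poly.cons (Poly.or (hd.comp e1) (Poly.and (hc.comp e1) (Poly.decide_eq (Poly.fst
      (Poly.snd Poly.id)) (NPC.Poly.const _)))) (NPC.Poly.const []))

/-- the value of the time bound, if it can be computed in time `|u|` -/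
def G (F : List Bool → List Bool) (y u : List Bool) : List Bool :=
  F (pairBits (List.replicate y.length true) (List.replicate u.length true))

theorem poly_G {F : List Bool → List Bool} (hF : Poly F) {y u : List Bool → List Bool}
    (hy : Poly y) (hu : Poly u) : Poly (fun a => G F (y a) (u a)) :=
  hF.comp (poly_pairBits (poly_replen hy) (poly_replen hu))

theorem size_lt {k n : ℕ} : k < n.bits.length ↔ 2 ^ k ≤ n := by
  rw [Nat.size_eq_bits_len]
  exact Nat.lt_size

section Hard

variable {O : Oracle} {L : Set (List Bool)} {t : ℕ → ℕ}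

/-- the padded language -/
def Lt (t : ℕ → ℕ) (L : Set (List Bool)) : Set (List Bool) :=
  {y | pairBits (unpair y).1 (unpair y).2 = y ∧ (unpair y).1 ∈ L ∧
    2 ^ (unpair y).1.length ≤ t y.length}

theorem nt_lt (hL : InNTime Lin O L) (hc : Constr t) : NT O t (Lt t L) := by
  obtain ⟨V, hV, p, ⟨a, rfl⟩, hVL⟩ := hL
  obtain ⟨F, r, hF, hFt⟩ := hc
  have hF' : Poly F := poly_of_polyTime hF
  have hy : Poly (fun z : List Bool => (unpair z).2) := poly_u2
  have hx : Poly (fun z : List Bool => (unpair (unpair z).2).1) := poly_u1.comp poly_u2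
  have hp : Poly (fun z : List Bool => (unpair (unpair z).2).2) := poly_u2.comp poly_u2
  have hc1 : Poly (fun z : List Bool => (unpair (unpair z).1).1) := poly_u1.comp poly_u1
  have hc2 : Poly (fun z : List Bool => (unpair (unpair z).1).2) := poly_u2.comp poly_u1
  set q : Polynomial ℕ := Polynomial.C a * (Polynomial.X + 1) with hq
  let c : List Bool → Bool := fun z =>
    decide (pairBits (unpair (unpair z).2).1 (unpair (unpair z).2).2 = (unpair z).2) &&
    (decide ((unpair (unpair z).2).1.length <
      (G F (unpair z).2 (unpair (unpair z).1).2).tail.length) &&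
    decide ((unpair (unpair z).1).1.length ≤ 2 ^ q.eval (unpair (unpair z).2).1.length))
  have hcp : Poly c := Poly.and (Poly.decide_eq (poly_pairBits hx hp) hy)
    (Poly.and (Poly.decide_lt (Poly.length hx) (Poly.length (Poly.tail (poly_G hF' hy hc2))))
      (Poly.decide_le (Poly.length hc1) (A4.poly_two_pow (UPoly.eval (UPoly.length hx) q))))
  have hV' : IsFP O (fun z => V (pairBits (unpair (unpair z).1).1 (unpair (unpair z).2).1)) :=
    hV.precomp (poly_pairBits hc1 hx)
  refine ⟨fun z => [false || (c z && decide (V (pairBits (unpair (unpair z).1).1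
    (unpair (unpair z).2).1) = [true]))], 2 * (2 * Polynomial.X) ^ a + 1 + r,
    isFP_cmb hV' hcp (NPC.Poly.const false), ?_, ?_⟩
  · intro y w h
    simp only [c, unpair_pairBits, Bool.false_or, List.cons.injEq, and_true, Bool.and_eq_true,
      decide_eq_true_eq] at h
    obtain ⟨⟨h1, h2, h3⟩, h4⟩ := h
    have h5 := (hFt y.length (unpair w).2.length).1
    have h6 : G F y (unpair w).2 = true :: (t y.length).bits := by
      rcases h5 with h5 | h5
      · exfalso
        unfold G at h2
        rw [h5] at h2
        simp at h2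
      · exact h5
    rw [h6, List.tail_cons, size_lt] at h2
    exact ⟨h1, (hVL _).2 ⟨_, h3, h4⟩, h2⟩
  · rintro y ⟨h1, h2, h3⟩
    obtain ⟨w, hw, hw'⟩ := (hVL _).1 h2
    refine ⟨pairBits w (List.replicate (r.eval (t y.length)) true), ?_, ?_⟩
    · rw [length_pairBits, List.length_replicate]
      have h4 : w.length ≤ (2 * t y.length) ^ a := by
        refine hw.trans ?_
        have h5 : 2 ^ q.eval (unpair y).1.length = (2 * 2 ^ (unpair y).1.length) ^ a := by
          rw [hq]
          simp only [Polynomial.eval_mul, Polynomial.eval_C, Polynomial.eval_add,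
            Polynomial.eval_X, Polynomial.eval_one]
          rw [← pow_succ', ← pow_mul, mul_comm]
        rw [h5]
        exact Nat.pow_le_pow_left (Nat.mul_le_mul_left 2 h3) a
      simp only [Polynomial.eval_add, Polynomial.eval_mul, Polynomial.eval_pow,
        Polynomial.eval_ofNat, Polynomial.eval_X, Polynomial.eval_one]
      omega
    · have h5 := (hFt y.length (r.eval (t y.length))).2 le_rfl
      have h6 : G F y (List.replicate (r.eval (t y.length)) true) =
          true :: (t y.length).bits := by
        unfold G
        rw [List.length_replicate]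
        exact ((hFt y.length (r.eval (t y.length))).1).resolve_left h5
      simp only [c, unpair_pairBits, Bool.false_or, List.cons.injEq, and_true, Bool.and_eq_true,
        decide_eq_true_eq, h6, List.tail_cons, size_lt]
      exact ⟨⟨h1, h3, hw⟩, hw'⟩

theorem not_nt_lt (hL : ¬ InNTime2 O Lᶜ) (hn : ∀ n, n ≤ t n) (hc : Constr t) (hg : Gentle t) :
    ¬ NT O t (Lt t L)ᶜ := by
  classical
  rintro ⟨V, p, hV, hV1, hV2⟩
  apply hL
  obtain ⟨F, r, hF, hFt⟩ := hc
  obtain ⟨k₀, hk₀⟩ := hg
  have hF' : Poly F := poly_of_polyTime hF
  obtain ⟨d, hd⟩ := poly_le (2 * p + 1 + (2 * Polynomial.X + 1 + r)) 0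
  set k₁ := k₀ + 200 * (d + 2) with hk₁
  have hx : Poly (fun z : List Bool => (unpair z).2) := poly_u2
  have hc : Poly (fun z : List Bool => (unpair (unpair z).1).1) := poly_u1.comp poly_u1
  have hp : Poly (fun z : List Bool => (unpair (unpair (unpair z).1).2).1) :=
    poly_u1.comp (poly_u2.comp poly_u1)
  have hp2 : Poly (fun z : List Bool => (unpair (unpair (unpair z).1).2).2) :=
    poly_u2.comp (poly_u2.comp poly_u1)
  have hfin : {x : List Bool | x.length < k₁ ∧ x ∉ L}.Finite :=
    ((Finset.range k₁).biUnion DT.strs).finite_toSet.subset fun x hx => by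
      rw [Finset.mem_coe, Finset.mem_biUnion]
      exact ⟨x.length, Finset.mem_range.2 hx.1, DT.mem_strs.2 rfl⟩
  set l0 : List (List Bool) := hfin.toFinset.toList with hl0
  have hl0m : ∀ x, x ∈ l0 ↔ x.length < k₁ ∧ x ∉ L := fun x => by
    rw [hl0, Finset.mem_toList, Set.Finite.mem_toFinset]
    exact Iff.rfl
  let dd : List Bool → Bool := fun z => decide ((unpair z).2 ∈ l0)
  let y : List Bool → List Bool := fun z =>
    pairBits (unpair z).2 (unpair (unpair (unpair z).1).2).1
  have hy : Poly y := poly_pairBits hx hp
  let c : List Bool → Bool := fun z => (!decide ((unpair z).2.length < k₁)) &&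
    decide ((unpair z).2.length < (G F (y z) (unpair (unpair (unpair z).1).2).2).tail.length)
  have hdd : Poly dd := Poly.dec_mem hx (NPC.Poly.const l0)
  have hcp : Poly c := Poly.and (Poly.not (Poly.decide_lt (Poly.length hx) (NPC.Poly.const k₁)))
    (Poly.decide_lt (Poly.length hx) (Poly.length (Poly.tail (poly_G hF' hy hp2))))
  have hV' : IsFP O (fun z => V (pairBits (unpair (unpair z).1).1 (y z))) :=
    hV.precomp (poly_pairBits hc hy)
  refine ⟨_, isFP_cmb hV' hcp hdd, fun x => ⟨fun hxL => ?_, ?_⟩⟩
  · by_cases hk : x.length < k₁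
    · refine ⟨[], Nat.zero_le _, ?_⟩
      have h1 : dd (pairBits [] x) = true := by
        simp only [dd, unpair_pairBits, decide_eq_true_eq]
        exact (hl0m x).2 ⟨hk, hxL⟩
      rw [h1]
      rfl
    · obtain ⟨m, hm, h1, h2⟩ := hk₀ x.length (by omega)
      set u := List.replicate (m - (2 * x.length + 1)) true with hu
      have hlen : (pairBits x u).length = m := by
        rw [length_pairBits, hu, List.length_replicate]
        omega
      have h3 : pairBits x u ∈ (Lt t L)ᶜ := by
        rintro ⟨_, h4, _⟩
        rw [unpair_pairBits] at h4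
        exact hxL h4
      obtain ⟨w, hw, hw'⟩ := hV2 _ h3
      rw [hlen] at hw
      refine ⟨pairBits w (pairBits u (List.replicate (r.eval (t m)) true)), ?_, ?_⟩
      · rw [length_pairBits, length_pairBits, hu, List.length_replicate, List.length_replicate]
        have h4 := hd (t m)
        simp only [Polynomial.eval_add, Polynomial.eval_mul, Polynomial.eval_ofNat,
          Polynomial.eval_X, Polynomial.eval_one] at h4
        have h5 := hn m
        have h6 : 2 * w.length + 1 + (2 * (m - (2 * x.length + 1)) + 1 + r.eval (t m)) ≤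
            (t m) ^ d + d := by omega
        refine h6.trans ?_
        have h7 := Nat.pow_le_pow_left h2 d
        rw [← pow_mul] at h7
        set s := 2 ^ (x.length / 200) with hs
        have h8 : d + 2 ≤ s := by
          have h9 : d + 2 ≤ x.length / 200 := by omega
          have h10 : x.length / 200 < s := Nat.lt_two_pow_self
          omega
        have h9 : s * s ≤ 2 ^ (x.length / 100) := by
          rw [hs, ← pow_add]
          exact Nat.pow_le_pow_right (by norm_num) (by omega)
        have h10 : 2 ^ (s * d) + d ≤ 2 ^ (s * d + d) := by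
          rw [pow_add]
          have e1 : d < 2 ^ d := Nat.lt_two_pow_self
          have e2 : 1 ≤ 2 ^ (s * d) := Nat.one_le_two_pow
          nlinarith
        have h11 : s * d + d ≤ s * s := by
          have e1 : s * (d + 1) ≤ s * s := Nat.mul_le_mul_left s (by omega)
          have e2 : s * (d + 1) = s * d + s := by ring
          omega
        calc (t m) ^ d + d ≤ 2 ^ (s * d) + d := by omega
          _ ≤ 2 ^ (s * d + d) := h10
          _ ≤ 2 ^ (2 ^ (x.length / 100)) :=
            Nat.pow_le_pow_right (by norm_num) (h11.trans h9)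
      · have h6 : G F (pairBits x u) (List.replicate (r.eval (t m)) true) =
            true :: (t m).bits := by
          unfold G
          rw [List.length_replicate, hlen]
          exact ((hFt m (r.eval (t m))).1).resolve_left ((hFt m (r.eval (t m))).2 le_rfl)
        have h7 : c (pairBits (pairBits w (pairBits u (List.replicate (r.eval (t m)) true))) x) =
            true := by
          simp only [c, y, unpair_pairBits, h6, List.tail_cons, size_lt, Bool.and_eq_true,
            Bool.not_eq_true', decide_eq_false_iff_not, decide_eq_true_eq]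
          exact ⟨hk, h1⟩
        simp only [h7, y, unpair_pairBits, hw', decide_true, Bool.and_true, Bool.or_true]
  · rintro ⟨w, _, hw⟩
    simp only [List.cons.injEq, and_true, Bool.or_eq_true, Bool.and_eq_true,
      decide_eq_true_eq] at hw
    rcases hw with hw | ⟨h1, h2⟩
    · simp only [dd, unpair_pairBits, decide_eq_true_eq] at hw
      exact ((hl0m x).1 hw).2
    · intro hxL
      have h3 := hV1 _ _ h2
      apply h3
      simp only [c, Bool.and_eq_true, decide_eq_true_eq] at h1
      obtain ⟨_, h1⟩ := h1
      have h6 : G F (y (pairBits w x)) (unpair (unpair (unpair (pairBits w x)).1).2).2 =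
          true :: (t (y (pairBits w x)).length).bits := by
        rcases (hFt (y (pairBits w x)).length
          (unpair (unpair (unpair (pairBits w x)).1).2).2.length).1 with h5 | h5
        · exfalso
          unfold G at h1
          rw [h5] at h1
          simp at h1
        · exact h5
      rw [h6, List.tail_cons, size_lt] at h1
      refine ⟨?_, ?_, ?_⟩
      · simp only [y, unpair_pairBits]
      · simp only [y, unpair_pairBits]
        exact hxL
      · simp only [y, unpair_pairBits] at h1 ⊢
        exact h1

end Hard

/-- if `P = PSPACE` then all the classes are closed under complement -/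
theorem nt_compl {O : Oracle} (hP : ∀ L, IsPSPACE O L → IsP O L) {t : ℕ → ℕ} (hc : Constr t)
    {L : Set (List Bool)} (hL : NT O t L) : NT O t Lᶜ := by
  obtain ⟨V, p, hV, hV1, hV2⟩ := hL
  obtain ⟨F, r, hF, hFt⟩ := hc
  have hF' : Poly F := poly_of_polyTime hF
  -- the question whether there is a short certificate
  set D : Set (List Bool) := {z | ∃ w : List Bool, w.length ≤ (Polynomial.X : Polynomial ℕ).eval
    z.length ∧ [false || (decide ((unpair (pairBits w z)).1.length ≤
      (unpair (unpair (pairBits w z)).2).2.length) &&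
        decide (V (pairBits (unpair (pairBits w z)).1 (unpair (unpair (pairBits w z)).2).1) =
          [true]))] = [true]} with hD
  have hDP : IsP O D := by
    apply hP
    apply IsNP.isPSPACE
    refine ⟨fun z => [false || (decide ((unpair z).1.length ≤ (unpair (unpair z).2).2.length) &&
      decide (V (pairBits (unpair z).1 (unpair (unpair z).2).1) = [true]))], Polynomial.X, ?_,
      fun _ => Iff.rfl⟩
    exact isFP_cmb (hV.precomp (poly_pairBits poly_u1 (poly_u1.comp poly_u2)))
      (Poly.decide_le (Poly.length poly_u1) (Poly.length (poly_u2.comp poly_u2)))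
      (NPC.Poly.const false)
  obtain ⟨VD, hVD, hD'⟩ := hDP
  have hmem : ∀ x u : List Bool, pairBits x u ∈ D ↔
      ∃ w : List Bool, w.length ≤ u.length ∧ V (pairBits w x) = [true] := by
    intro x u
    rw [hD]
    simp only [Set.mem_ofPred_eq, Polynomial.eval_X, unpair_pairBits, Bool.false_or,
      List.cons.injEq, and_true, Bool.and_eq_true, decide_eq_true_eq]
    exact exists_congr fun w => ⟨fun h => h.2, fun h => ⟨by
      rw [length_pairBits]
      omega, h⟩⟩
  have hg : Poly (fun z : List Bool => G F (unpair z).2 (unpair z).1) :=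
    poly_G hF' poly_u2 poly_u1
  have hT : Poly (fun z : List Bool => valB (G F (unpair z).2 (unpair z).1).tail) :=
    Poly.valBits (Poly.tail hg)
  let c : List Bool → Bool := fun z => decide (G F (unpair z).2 (unpair z).1 ≠ []) &&
    (decide (valB (G F (unpair z).2 (unpair z).1).tail ≤ (unpair z).1.length) &&
      (decide (p.eval (min (valB (G F (unpair z).2 (unpair z).1).tail) (unpair z).1.length) ≤
        (unpair z).1.length)))
  have hcp : Poly c := Poly.and ((Poly.not (Poly.decide_eq hg (NPC.Poly.const []))).congr
      fun z => by rw [decide_not]) (Poly.and (Poly.decide_le hT (Poly.length poly_u1))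
      (Poly.decide_le (UPoly.eval (EL.poly_min_len hT poly_u1) p).toPoly (Poly.length poly_u1)))
  have hW : IsFP O (fun z => [!decide (VD (pairBits (unpair z).2 (unpair z).1) = [true])]) :=
    isFP_postcomp (h := fun s => [!decide (s = [true])]) (hVD.precomp
      (poly_pairBits poly_u2 poly_u1)) (Poly.cons (Poly.not (Poly.decide_eq Poly.id
        (NPC.Poly.const _))) (NPC.Poly.const []))
  refine ⟨_, r + Polynomial.X + p, isFP_cmb hW hcp (NPC.Poly.const false), ?_, ?_⟩
  · intro x u h hxL
    simp only [c, unpair_pairBits, Bool.false_or, List.cons.injEq, and_true, Bool.and_eq_true,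
      decide_eq_true_eq, Bool.not_eq_true', decide_eq_false_iff_not] at h
    obtain ⟨⟨h1, h2, h3⟩, h4⟩ := h
    have h6 : G F x u = true :: (t x.length).bits := by
      rcases (hFt x.length u.length).1 with h5 | h5
      · exact absurd h5 h1
      · exact h5
    rw [h6, List.tail_cons, Pool.Agent.H943R3.PP.N2.bits_valB'] at h2 h3
    rw [min_eq_left h2] at h3
    apply h4
    rw [← hD', hmem]
    obtain ⟨w, hw, hw'⟩ := hV2 x hxL
    exact ⟨w, hw.trans h3, hw'⟩
  · intro x hxL
    set m := r.eval (t x.length) + t x.length + p.eval (t x.length) with hm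
    refine ⟨List.replicate m true, ?_, ?_⟩
    · rw [List.length_replicate, hm]
      simp only [Polynomial.eval_add, Polynomial.eval_X]
      exact le_rfl
    · have h5 := (hFt x.length m).2 (by omega)
      have h6 : G F x (List.replicate m true) = true :: (t x.length).bits := by
        unfold G
        rw [List.length_replicate]
        exact ((hFt x.length m).1).resolve_left h5
      simp only [c, unpair_pairBits, Bool.false_or, List.cons.injEq, and_true, Bool.and_eq_true,
        decide_eq_true_eq, Bool.not_eq_true', decide_eq_false_iff_not, h6, List.tail_cons,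
        Pool.Agent.H943R3.PP.N2.bits_valB', List.length_replicate]
      have h7 : t x.length ≤ m := by omega
      rw [min_eq_left h7]
      refine ⟨⟨by simp, h7, by omega⟩, fun h8 => ?_⟩
      rw [← hD', hmem] at h8
      obtain ⟨w, _, hw⟩ := h8
      exact hxL (hV1 _ _ hw)

/-! ### Examples -/

theorem constr_of_poly {t : ℕ → ℕ} (ht : Poly (fun x : List Bool => t x.length)) : Constr t := by
  have h1 : Poly (fun z : List Bool => t (unpair z).1.length) := ht.comp poly_u1
  refine ⟨fun z => if t (unpair z).1.length ≤ (unpair z).2.length then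
    true :: (t (unpair z).1.length).bits else [], Polynomial.X, polyTime_of_poly_list
      (Poly.ite (Poly.decide_le h1 (Poly.length poly_u2)) (Poly.cons (NPC.Poly.const true)
        (Poly.natBits h1)) (NPC.Poly.const [])), fun n m => ?_⟩
  simp only [unpair_pairBits, List.length_replicate, Polynomial.eval_X]
  constructor
  · split_ifs
    · exact Or.inr rfl
    · exact Or.inl rfl
  · intro h
    rw [if_pos h]
    simp

theorem exists_k0 : ∃ k₀ : ℕ, ∀ k ≥ k₀, 4 * k ≤ 2 ^ (k / 200) := by
  obtain ⟨n₀, hn₀⟩ := X9.exists_n0 (Polynomial.C 800 * (Polynomial.X + 1))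
  refine ⟨200 * n₀, fun k hk => ?_⟩
  have h1 := hn₀ (k / 200) (by omega)
  simp only [Polynomial.eval_mul, Polynomial.eval_add, Polynomial.eval_C, Polynomial.eval_X,
    Polynomial.eval_one] at h1
  omega

theorem gentle_id : Gentle (fun n => n) := by
  obtain ⟨k₀, hk₀⟩ := exists_k0
  refine ⟨k₀, fun k hk => ⟨2 ^ k, ?_, le_rfl, ?_⟩⟩
  · exact (hk₀ k hk).trans (Nat.pow_le_pow_right (by norm_num) (Nat.div_le_self _ _))
  · exact Nat.pow_le_pow_right (by norm_num) (by have := hk₀ k hk; omega)

theorem gentle_exp : Gentle (fun n => 2 ^ n) := by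
  obtain ⟨k₀, hk₀⟩ := exists_k0
  refine ⟨k₀, fun k hk => ⟨4 * k, le_rfl, Nat.pow_le_pow_right (by norm_num) (by omega), ?_⟩⟩
  exact Nat.pow_le_pow_right (by norm_num) (hk₀ k hk)

end Pool.Agent.TH680.CT
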